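import Pool.Agent.Shared.Subspace.Defs

/-!
Definitions for the Subspace Theorem with a finite family of pairwise coprime bases.
-/

namespace Pool.Agent.Subspace2

variable {κ ι : Type*} [Fintype κ]

/-- The integer point `x` lies in the box with parameter `m`:
`bs a ^ (k a i * m)` divides `x i`, and `|L i x| ≤ b ^ (c i * m)`. -/
def InBoxF [Fintype ι] (b : ℕ) (bs : κ → ℕ) (k : κ → ι → ℕ) (c : ι → ℝ) (L : Matrix ι ι ℝ) (m : ℕ)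
    (x : ι → ℤ) : Prop :=
  (∀ a i, (bs a : ℤ) ^ (k a i * m) ∣ x i) ∧
    ∀ i, |∑ j, L i j * (x j : ℝ)| ≤ (b : ℝ) ^ (c i * m)

/-- The modulus of the coordinate `i`. -/
def dd (bs : κ → ℕ) (k : κ → ι → ℕ) (i : ι) : ℕ := ∏ a, bs a ^ k a i

theorem logb_nonneg {b : ℕ} (hb : 2 ≤ b) {bs : κ → ℕ} (hbs : ∀ a, 2 ≤ bs a) (a : κ) :
    0 ≤ Real.logb b (bs a) :=
  Real.logb_nonneg (by exact_mod_cast hb) (by have := hbs a; exact_mod_cast (by omega : 1 ≤ bs a))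

theorem rpow_sum_logb {b : ℕ} (hb : 2 ≤ b) {bs : κ → ℕ} (hbs : ∀ a, 2 ≤ bs a) (e : κ → ℕ) :
    (b : ℝ) ^ (∑ a, Real.logb b (bs a) * e a) = ∏ a, (bs a : ℝ) ^ e a := by
  have hb1 : (1 : ℝ) < b := by exact_mod_cast hb
  have hb0 : (0 : ℝ) < b := by linarith
  rw [Real.rpow_sum_of_pos hb0]
  refine Finset.prod_congr rfl fun a _ => ?_
  have : (0 : ℝ) < bs a := by have := hbs a; exact_mod_cast (by omega : 0 < bs a)
  rw [Real.rpow_mul_natCast hb0.le, Real.rpow_logb hb0 hb1.ne' this]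

theorem prod_pow_dvd {bs : κ → ℕ} (hco : Pairwise fun a a' => Nat.Coprime (bs a) (bs a'))
    (e : κ → ℕ) {x : ℤ} (h : ∀ a, (bs a : ℤ) ^ e a ∣ x) : ∏ a, (bs a : ℤ) ^ e a ∣ x :=
  Fintype.prod_dvd_of_coprime (fun _ _ haa => (Nat.isCoprime_iff_coprime.mpr (hco haa)).pow) h

theorem rpow_le_abs {b : ℕ} (hb : 2 ≤ b) {bs : κ → ℕ} (hbs : ∀ a, 2 ≤ bs a)
    (hco : Pairwise fun a a' => Nat.Coprime (bs a) (bs a')) (e : κ → ℕ) {x : ℤ} (hx : x ≠ 0)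
    (h : ∀ a, (bs a : ℤ) ^ e a ∣ x) :
    (b : ℝ) ^ (∑ a, Real.logb b (bs a) * e a) ≤ |(x : ℝ)| := by
  rw [rpow_sum_logb hb hbs]
  have := Int.le_of_dvd (abs_pos.mpr hx) ((dvd_abs _ _).mpr (prod_pow_dvd hco e h))
  exact_mod_cast this

theorem dd_pos {bs : κ → ℕ} (hbs : ∀ a, 2 ≤ bs a) (k : κ → ι → ℕ) (i : ι) : 0 < dd bs k i :=
  Finset.prod_pos fun a _ => pow_pos (by have := hbs a; omega) _

theorem dd_pow (bs : κ → ℕ) (k : κ → ι → ℕ) (i : ι) (m : ℕ) :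
    (dd bs k i : ℤ) ^ m = ∏ a, (bs a : ℤ) ^ (k a i * m) := by
  simp only [dd, Nat.cast_prod, Nat.cast_pow, ← Finset.prod_pow, ← pow_mul]

theorem dd_pow_real {b : ℕ} (hb : 2 ≤ b) {bs : κ → ℕ} (hbs : ∀ a, 2 ≤ bs a) (k : κ → ι → ℕ)
    (i : ι) (m : ℕ) :
    (dd bs k i : ℝ) ^ m = (b : ℝ) ^ ((∑ a, Real.logb b (bs a) * k a i) * m) := by
  rw [Real.rpow_mul_natCast (by positivity), rpow_sum_logb hb hbs fun a => k a i]
  simp [dd]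

end Pool.Agent.Subspace2
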