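import Pool.Agent.Shared.Subspace.AuxPoly
import Pool.Agent.Shared.Subspace.Vanish
import Pool.Agent.Shared.Subspace2.Defs

/-!
The auxiliary polynomial with several weight functionals, and its vanishing on the boxes.
-/

namespace Pool.Agent.Subspace2

open MvPolynomial NumberField Pool.Agent.Subspace

/-- The auxiliary polynomial: multihomogeneous of degree `d h` in the block `h`, of small height,
with no monomial of small `k`-weight, and, after the substitution `X = M Y`, no monomial of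
large `c`-weight. -/
theorem aux_polyF {κ ι : Type*} [Fintype κ] [Fintype ι] [DecidableEq ι] [Nonempty ι]
    (M : Matrix ι ι ℝ) (hM : ∀ i j, IsAlgebraic ℚ (M i j)) (k : κ → ι → ℝ) (c : ι → ℝ) {η : ℝ}
    (hη : 0 < η) :
    ∃ (s₀ : ℕ) (K : ℝ), 1 ≤ K ∧ ∀ s : ℕ, s₀ ≤ s → ∀ (d m : Fin s → ℕ) (D : ℕ), 0 < D →
      (∀ h, m h * d h = D) →
      ∃ P : MvPolynomial (Fin s × ι) ℤ, P ≠ 0 ∧
        (∀ ν ∈ P.support, ∀ h, ∑ i, ν (h, i) = d h) ∧
        (∀ a, ∀ ν ∈ P.support, (s : ℝ) * D * ((∑ i, k a i) / Fintype.card ι - η) ≤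
          ∑ h, ∑ i, (m h : ℝ) * k a i * ν (h, i)) ∧
        l1 P ≤ K ^ (∑ h, d h) ∧
        (∀ ν ∈ (linSub M P).support, ∑ h, ∑ i, (m h : ℝ) * c i * ν (h, i) ≤
          (s : ℝ) * D * ((∑ i, c i) / Fintype.card ι + η)) := by
  classical
  obtain ⟨F, _, _, σ, t, N', ht, hN'⟩ :=
    exists_numberField (fun p : ι × ι => M p.1 p.2) fun p => hM p.1 p.2
  let N : ι → ι → 𝓞 F := fun i j => N' (i, j)
  have hN : ∀ i j, σ (N i j : F) = t * M i j := fun i j => hN' (i, j)
  obtain ⟨C₀, hC₀, hrepr⟩ := exists_repr_le_house F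
  set b := RingOfIntegers.basis F
  set g := Fintype.card (Module.Free.ChooseBasisIndex ℤ (𝓞 F)) with hg
  set δ : ℝ := 1 / (2 * g + 1 + Fintype.card κ) with hδ
  have hδ0 : 0 < δ := by positivity
  choose s₁' hs₁ using fun a => few_heavy (fun i => -k a i) hη hδ0
  set s₁ := Finset.univ.sup s₁' with hs₁'
  obtain ⟨s₂, hs₂⟩ := few_heavy c hη hδ0
  set R : ℝ := 1 + ∑ i, ∑ j, house (N i j : F) with hR
  have hRs : ∀ i, 0 ≤ ∑ j, house (N i j : F) :=
    fun i => Finset.sum_nonneg fun j _ => house_nonneg _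
  have hR1 : 1 ≤ R := by
    have := Finset.sum_nonneg fun i (_ : i ∈ Finset.univ) => hRs i
    linarith
  have hRi : ∀ i, ∑ j, house (N i j : F) ≤ R := fun i => by
    have := Finset.single_le_sum (fun i (_ : i ∈ Finset.univ) => hRs i) (Finset.mem_univ i)
    linarith
  set E : ℝ := 2 ^ Fintype.card ι with hE
  have hE1 : 1 ≤ E := one_le_pow₀ (by norm_num)
  refine ⟨max 1 (max s₁ s₂), E * (E * ((1 + C₀) * R)), ?_, fun s hs d m D hD hmd => ?_⟩
  · refine one_le_mul_of_one_le_of_one_le hE1 (one_le_mul_of_one_le_of_one_le hE1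
      (one_le_mul_of_one_le_of_one_le (by linarith) hR1))
  have hs1 : 1 ≤ s := (le_max_left _ _).trans hs
  have hss₁ : s₁ ≤ s := ((le_max_left _ _).trans (le_max_right _ _)).trans hs
  have hss₂ : s₂ ≤ s := ((le_max_right _ _).trans (le_max_right _ _)).trans hs
  set T := Fintype.piFinset fun h => Finset.piAntidiag (Finset.univ : Finset ι) (d h) with hT
  have hmemT : ∀ ν, ν ∈ T ↔ ∀ h, ∑ i, ν h i = d h := by
    intro ν
    simp [hT, Fintype.mem_piFinset]
  have hsumT : ∀ ν ∈ T, ∑ h, ∑ i, ν h i = ∑ h, d h := fun ν hν =>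
    Finset.sum_congr rfl fun h _ => (hmemT ν).mp hν h
  have hTpos : 0 < T.card :=
    Finset.card_pos.mpr (Fintype.piFinset_nonempty.mpr fun h => simplex_nonempty _)
  have hTle : (T.card : ℝ) ≤ E ^ ∑ h, d h := by
    have : T.card ≤ (2 ^ Fintype.card ι) ^ ∑ h, d h := by
      rw [hT, Fintype.card_piFinset, ← Finset.prod_pow_eq_pow_sum]
      exact Finset.prod_le_prod' fun h _ => card_simplex_le _
    rw [hE]
    exact_mod_cast this
  have hd1 : 1 ≤ ∑ h, d h := by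
    have h0 : 0 < d ⟨0, hs1⟩ := Nat.pos_of_mul_pos_left ((hmd ⟨0, hs1⟩).symm ▸ hD)
    exact h0.trans_le (Finset.single_le_sum (fun h _ => Nat.zero_le (d h)) (Finset.mem_univ _))
  -- good unknowns and bad equations
  set G := T.filter fun ν => ∀ a, (s : ℝ) * D * ((∑ i, k a i) / Fintype.card ι - η) ≤
    ∑ h, ∑ i, (m h : ℝ) * k a i * ν h i with hG
  set B := T.filter fun ν => (s : ℝ) * D * ((∑ i, c i) / Fintype.card ι + η) ≤
    ∑ h, ∑ i, (m h : ℝ) * c i * ν h i with hB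
  have hBcard : (B.card : ℝ) ≤ δ * T.card :=
    hs₂ s hss₂ d m D hD hmd B (Finset.filter_subset _ _) fun ν hν => (Finset.mem_filter.mp hν).2
  have hGcard : ((T \ G).card : ℝ) ≤ Fintype.card κ * (δ * T.card) := by
    let Bad : κ → Finset (Fin s → ι → ℕ) := fun a => T.filter fun ν =>
      ¬ (s : ℝ) * D * ((∑ i, k a i) / Fintype.card ι - η) ≤ ∑ h, ∑ i, (m h : ℝ) * k a i * ν h i
    have h1 : T \ G ⊆ Finset.univ.biUnion Bad := fun ν hν => by
      rw [Finset.mem_sdiff, hG, Finset.mem_filter, not_and, not_forall] at hν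
      obtain ⟨a, ha⟩ := hν.2 hν.1
      exact Finset.mem_biUnion.mpr ⟨a, Finset.mem_univ _, Finset.mem_filter.mpr ⟨hν.1, ha⟩⟩
    have h2 : ∀ a, ((Bad a).card : ℝ) ≤ δ * T.card := fun a => by
      refine hs₁ a s ((Finset.le_sup (f := s₁') (Finset.mem_univ a)).trans hss₁) d m D hD hmd
        (Bad a) (Finset.filter_subset _ _) fun ν hν => ?_
      have := not_le.mp (Finset.mem_filter.mp hν).2
      simp only [mul_neg, neg_mul, Finset.sum_neg_distrib, neg_div]
      linarith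
    calc ((T \ G).card : ℝ) ≤ ∑ a, ((Bad a).card : ℝ) := by
          exact_mod_cast (Finset.card_le_card h1).trans Finset.card_biUnion_le
      _ ≤ ∑ _a : κ, δ * T.card := Finset.sum_le_sum fun a _ => h2 a
      _ = _ := by simp
  have hGT : G ⊆ T := Finset.filter_subset _ _
  have hGc : (G.card : ℝ) = T.card - (T \ G).card := by
    rw [← Finset.card_sdiff_add_card_eq_card hGT]
    push_cast
    ring
  have hT0 : (0 : ℝ) < T.card := by exact_mod_cast hTpos
  have hδg : δ * (2 * g + 1 + Fintype.card κ) = 1 := by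
    rw [hδ]
    field_simp
  have hg0 : (0 : ℝ) ≤ g := Nat.cast_nonneg _
  have hGlow : (2 * g + 1) * (δ * T.card) ≤ G.card := by
    rw [hGc]
    have : (T.card : ℝ) = δ * (2 * g + 1 + Fintype.card κ) * T.card := by rw [hδg, one_mul]
    nlinarith
  let A : Matrix (B × Module.Free.ChooseBasisIndex ℤ (𝓞 F)) G ℤ :=
    fun r ν => b.repr (coeff (expo r.1.1) (mono N ν.1)) r.2
  set W : ℝ := ((1 + C₀) * R) ^ ∑ h, d h with hW
  have hW1 : 1 ≤ W :=
    one_le_pow₀ (one_le_mul_of_one_le_of_one_le (by linarith) hR1)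
  obtain ⟨p, hp0, hp, hpn⟩ := siegel_half A (B := W)
    (by
      rw [Fintype.card_prod, Fintype.card_coe, Fintype.card_coe, ← hg]
      have h1 : (2 * (B.card * g) : ℝ) ≤ G.card := by
        have h2 : (B.card : ℝ) * g ≤ δ * T.card * g := mul_le_mul_of_nonneg_right hBcard hg0
        have h3 : 0 ≤ δ * T.card := by positivity
        nlinarith
      exact_mod_cast h1)
    (by
      rw [Fintype.card_coe]
      have h1 : (0 : ℝ) < G.card := lt_of_lt_of_le (by positivity) hGlow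
      exact_mod_cast h1)
    hW1
    (by
      intro r ν
      refine (hrepr _ _).trans ?_
      have h1 := house_coeff_mono_le N ν.1 (expo r.1.1) hRi
      rw [hsumT _ (hGT ν.2)] at h1
      rw [hW, mul_pow]
      refine mul_le_mul ?_ h1 (house_nonneg _) (by positivity)
      calc C₀ ≤ (1 + C₀) ^ 1 := by rw [pow_one]; linarith
        _ ≤ _ := pow_le_pow_right₀ (by linarith) hd1)
  rw [Fintype.card_coe] at hpn
  set P : MvPolynomial (Fin s × ι) ℤ := ∑ ν : G, monomial (expo ν.1) (p ν) with hP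
  have hcoeff : ∀ ν : G, coeff (expo ν.1) P = p ν := by
    intro ν
    rw [hP, coeff_sum, Finset.sum_eq_single ν]
    · simp
    · intro μ _ hμ
      rw [coeff_monomial, if_neg]
      exact fun h => hμ (Subtype.ext (expo_injective h))
    · simp
  have hsupp : ∀ μ ∈ P.support, ∃ ν ∈ G, μ = expo ν := by
    intro μ hμ
    rw [mem_support_iff, hP, coeff_sum] at hμ
    obtain ⟨ν, -, hν⟩ := Finset.exists_ne_zero_of_sum_ne_zero hμ
    rw [coeff_monomial] at hν
    refine ⟨ν.1, ν.2, ?_⟩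
    by_contra h
    exact hν (if_neg fun h' => h h'.symm)
  refine ⟨P, ?_, ?_, ?_, ?_, ?_⟩
  · intro h0
    apply hp0
    ext ν
    rw [← hcoeff ν, h0]
    simp
  · intro μ hμ h
    obtain ⟨ν, hν, rfl⟩ := hsupp μ hμ
    exact (hmemT ν).mp (hGT hν) h
  · intro a μ hμ
    obtain ⟨ν, hν, rfl⟩ := hsupp μ hμ
    exact (Finset.mem_filter.mp hν).2 a
  · have hGle : (G.card : ℝ) ≤ E ^ ∑ h, d h :=
      le_trans (by exact_mod_cast Finset.card_le_card hGT) hTle
    calc l1 P ≤ ∑ ν : G, l1 (monomial (expo ν.1) (p ν)) := l1_sum_le _ _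
      _ ≤ ∑ _ν : G, (G.card * W) := by
          refine Finset.sum_le_sum fun ν _ => ?_
          rw [l1_monomial, Int.norm_eq_abs]
          exact hpn ν
      _ = G.card * (G.card * W) := by
          rw [Finset.sum_const, Finset.card_univ, Fintype.card_coe, nsmul_eq_mul]
      _ ≤ E ^ (∑ h, d h) * (E ^ (∑ h, d h) * W) := by gcongr
      _ = _ := by rw [hW, mul_pow E, mul_pow E]
  · intro μ hμ
    have hlin : linSub M P = ∑ ν : G, C (p ν : ℝ) * mono M ν.1 := by
      rw [hP]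
      unfold linSub
      rw [map_sum]
      exact Finset.sum_congr rfl fun ν _ => linSub_monomial M ν.1 (p ν)
    rw [mem_support_iff, hlin, coeff_sum] at hμ
    let ν' : Fin s → ι → ℕ := fun h i => μ (h, i)
    have hμν : μ = expo ν' := by
      ext q
      rfl
    have hν'T : ν' ∈ T := by
      obtain ⟨ν, -, hν⟩ := Finset.exists_ne_zero_of_sum_ne_zero hμ
      rw [coeff_C_mul] at hν
      rw [hmemT]
      intro h
      rw [← (hmemT ν.1).mp (hGT ν.2) h]
      exact mono_degree M ν.1 (right_ne_zero_of_mul hν) h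
    by_contra hcon
    have hν'B : ν' ∈ B := Finset.mem_filter.mpr ⟨hν'T, (not_le.mp hcon).le⟩
    have hzero : ∑ ν : G, (p ν : 𝓞 F) * coeff μ (mono N ν.1) = 0 := by
      rw [← b.repr.map_eq_zero_iff]
      ext a
      have := congrFun hp (⟨ν', hν'B⟩, a)
      simp only [Matrix.mulVec, dotProduct, A, ← hμν, Pi.zero_apply] at this
      rw [map_sum, Finsupp.finsetSum_apply, Finsupp.zero_apply, ← this]
      refine Finset.sum_congr rfl fun ν _ => ?_
      rw [← zsmul_eq_mul, map_zsmul, Finsupp.smul_apply, smul_eq_mul, mul_comm]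
    let φ : 𝓞 F →+* ℝ := σ.comp (algebraMap (𝓞 F) F)
    have hφ := congrArg φ hzero
    rw [map_sum, map_zero] at hφ
    have hφ' : ∀ ν : G, φ ((p ν : 𝓞 F) * coeff μ (mono N ν.1)) =
        (t : ℝ) ^ (∑ h, d h) * coeff μ (C (p ν : ℝ) * mono M ν.1) := by
      intro ν
      rw [map_mul, map_intCast, ← coeff_map, map_mono']
      have e : (fun i j => φ (N i j)) = fun i j => (t : ℝ) * M i j := by
        ext i j
        exact hN i j
      have e2 : mono (fun i j => (t : ℝ) * M i j) ν.1 =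
          C ((t : ℝ) ^ ∑ h, ∑ i, ν.1 h i) * mono M ν.1 := mono_mul (t : ℝ) M ν.1
      rw [e, e2, hsumT _ (hGT ν.2), coeff_C_mul, coeff_C_mul]
      ring
    rw [Finset.sum_congr rfl fun ν _ => hφ' ν, ← Finset.mul_sum] at hφ
    have ht' : (t : ℝ) ^ (∑ h, d h) ≠ 0 := by positivity
    exact mul_ne_zero ht' hμ hφ

theorem coeff_shift_eq_zeroF {s : ℕ} {κ ι : Type*} [Fintype κ] [Fintype ι] [DecidableEq ι] {b : ℕ}
    (hb : 2 ≤ b) {bs : κ → ℕ} (hbs : ∀ a, 2 ≤ bs a)
    (hco : Pairwise fun a a' => Nat.Coprime (bs a) (bs a'))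
    (k : κ → ι → ℕ) (c : ι → ℝ) (L M : Matrix ι ι ℝ) (hML : M * L = 1) (m : Fin s → ℕ)
    (P : MvPolynomial (Fin s × ι) ℤ) (E : ℕ) (hE : ∀ ν ∈ P.support, ∑ p, ν p ≤ E) (A₁ : κ → ℝ)
    (A₂ A₃ : ℝ) (h1 : ∀ a, ∀ ν ∈ P.support, A₁ a ≤ ∑ h, ∑ i, (m h : ℝ) * k a i * ν (h, i))
    (h2 : ∀ ν ∈ (linSub M P).support, ∑ h, ∑ i, (m h : ℝ) * c i * ν (h, i) ≤ A₂)
    (K : ℕ) (hK : ∀ a i, k a i ≤ K) (c' : ℝ) (hc' : ∀ i, -c' ≤ c i) (N : ℝ) (hN : 1 ≤ N)
    (z : Fin s × ι → ℤ) (hz1 : ∀ a p, (bs a : ℤ) ^ (k a p.2 * m p.1) ∣ z p)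
    (hz2 : ∀ h i, |∑ j, L i j * (z (h, j) : ℝ)| ≤ N * (b : ℝ) ^ (c i * m h))
    (h3 : l1 P * ((1 + ∑ i, ∑ j, |M i j|) * (N + ∑ i, ∑ j, |L i j|)) ^ E ≤ (b : ℝ) ^ A₃)
    (μ : Fin s × ι →₀ ℕ) (hμ : ((∑ a, Real.logb b (bs a)) * K + c') * ∑ p, (m p.1 : ℝ) * μ p +
      A₂ + A₃ < ∑ a, Real.logb b (bs a) * A₁ a) :
    coeff μ (shift z P) = 0 := by
  by_contra hne
  have hb1 : (1 : ℝ) < b := by exact_mod_cast hb
  have hb0 : (0 : ℝ) < b := by linarith
  have e1 := fun a => badic_lower (bs a) (fun p => k a p.2 * m p.1) (fun p => K * m p.1)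
    (fun p => Nat.mul_le_mul_right _ (hK _ _)) P ⌈A₁ a⌉₊ (fun ν hν => by
      rw [Nat.ceil_le]
      refine (h1 a ν hν).trans (le_of_eq ?_)
      rw [← Fintype.sum_prod_type']
      push_cast
      exact Finset.sum_congr rfl fun p _ => by ring) z (hz1 a) μ
  set S : ℕ := ∑ p : Fin s × ι, K * m p.1 * μ p with hS
  have e2 := rpow_le_abs hb hbs hco (fun a => ⌈A₁ a⌉₊)
    (x := (∏ a, (bs a : ℤ) ^ S) * coeff μ (shift z P))
    (mul_ne_zero (Finset.prod_ne_zero_iff.mpr fun a _ => pow_ne_zero _ (by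
      have := hbs a; exact_mod_cast (by omega : bs a ≠ 0))) hne)
    fun a => (e1 a).trans (mul_dvd_mul_right (Finset.dvd_prod_of_mem
      (fun a => (bs a : ℤ) ^ S) (Finset.mem_univ a)) _)
  have e3 := rpow_sum_logb hb hbs fun _ => S
  rw [Int.cast_mul, abs_mul] at e2
  simp only [Int.cast_prod, Int.cast_pow, Int.cast_natCast] at e2
  rw [← e3, abs_of_pos (by positivity)] at e2
  have e4 := arch_upper hb1.le c L M hML m P E hE A₂ h2 c' hc' N hN z hz2 μ
  have e5 : (b : ℝ) ^ (∑ a, Real.logb b (bs a) * A₁ a) ≤ (b : ℝ) ^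
      (((∑ a, Real.logb b (bs a)) * K + c') * ∑ p, (m p.1 : ℝ) * μ p + A₂ + A₃) := by
    calc _ ≤ (b : ℝ) ^ (∑ a, Real.logb b (bs a) * ⌈A₁ a⌉₊) :=
          Real.rpow_le_rpow_of_exponent_le hb1.le (Finset.sum_le_sum fun a _ =>
            mul_le_mul_of_nonneg_left (Nat.le_ceil _) (logb_nonneg hb hbs a))
      _ ≤ (b : ℝ) ^ (∑ a, Real.logb b (bs a) * S) * ((b : ℝ) ^ (c' * ∑ p, (m p.1 : ℝ) * μ p) *
          ((b : ℝ) ^ A₃ * (b : ℝ) ^ A₂)) := by
          refine e2.trans (mul_le_mul_of_nonneg_left (e4.trans ?_) (by positivity))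
          gcongr
      _ = _ := by
          rw [← Real.rpow_add hb0, ← Real.rpow_add hb0, ← Real.rpow_add hb0]
          congr 1
          rw [hS, ← Finset.sum_mul]
          push_cast
          simp only [mul_assoc]
          rw [← Finset.mul_sum]
          ring
  exact absurd ((Real.rpow_le_rpow_left_iff hb1).mp e5) (not_le.mpr hμ)

end Pool.Agent.Subspace2
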