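import Pool.Agent.Shared.Subspace.Dichotomy
import Pool.Agent.Shared.Subspace2.AuxPoly

/-!
Hyperplanes of small height spanned by points of the box belong to a finite set.
-/

namespace Pool.Agent.Subspace2

open Matrix Pool.Agent.Subspace

variable {κ ι : Type*} [Fintype κ] [Fintype ι] [DecidableEq ι]

theorem dichotomyF (b : ℕ) (hb : 2 ≤ b) (bs : κ → ℕ) (hbs : ∀ a, 2 ≤ bs a)
    (hco : Pairwise fun a a' => Nat.Coprime (bs a) (bs a')) (k : κ → ι → ℕ) (c : ι → ℝ)
    (L : Matrix ι ι ℝ) (hL : ∀ i j, IsAlgebraic ℚ (L i j)) (hdet : L.det ≠ 0)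
    (hck : ∑ i, c i < ∑ a, Real.logb b (bs a) * ∑ i, (k a i : ℝ)) :
    ∃ (δ : ℝ) (Ψ : Finset (ι → ℤ)) (m₀ : ℕ), 0 < δ ∧ (∀ ψ ∈ Ψ, ψ ≠ 0) ∧ ∀ m : ℕ, m₀ ≤ m →
      ∀ (V : Matrix ι ι ℤ) (j₀ : ι), V.det ≠ 0 →
        (∀ j, j ≠ j₀ → InBoxF b bs k c L m fun i => V i j) →
        ∀ w : ι → ℤ, w ≠ 0 → (∀ j, j ≠ j₀ → ∑ i, w i * V i j = 0) →
          (∀ i, |(w i : ℝ)| ≤ (b : ℝ) ^ (δ * m)) →
          ∃ ψ ∈ Ψ, ∀ j, j ≠ j₀ → ∑ i, ψ i * V i j = 0 := by
  classical
  have hb1 : (1 : ℝ) < b := by exact_mod_cast hb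
  have hb0 : (0 : ℝ) < b := by linarith
  set M := L⁻¹ with hM
  have hu : IsUnit L.det := Ne.isUnit hdet
  have hML : M * L = 1 := Matrix.nonsing_inv_mul L hu
  have hLM : L * M = 1 := Matrix.mul_nonsing_inv L hu
  set Γ : ℝ := ∑ a, Real.logb b (bs a) * ∑ i, (k a i : ℝ) - ∑ i, c i with hΓ
  have hΓ0 : 0 < Γ := by linarith
  choose g K hK0 hK using fun j => liouville (fun i => M i j) fun i => isAlgebraic_inv L hL i j
  set G : ℕ := Finset.univ.sup g with hG
  set K' : ℝ := ∑ j, K j with hK'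
  let star : (ι → ℤ) → ι → ℝ := fun u j => ∑ i, M i j * (u i : ℝ)
  have hstar : ∀ (u x : ι → ℤ), ((∑ i, u i * x i : ℤ) : ℝ) =
      ∑ j, star u j * ∑ l, L j l * (x l : ℝ) := by
    intro u x
    have hδ : ∀ i l, ∑ j, M i j * L j l = if i = l then 1 else 0 := fun i l => by
      rw [← Matrix.mul_apply, hML, Matrix.one_apply]
    calc ((∑ i, u i * x i : ℤ) : ℝ)
        = ∑ i, ∑ l, (u i : ℝ) * (x l : ℝ) * ∑ j, M i j * L j l := by
          simp [hδ]
      _ = ∑ i, ∑ l, ∑ j, M i j * (u i : ℝ) * (L j l * (x l : ℝ)) := by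
          refine Finset.sum_congr rfl fun i _ => Finset.sum_congr rfl fun l _ => ?_
          rw [Finset.mul_sum]
          exact Finset.sum_congr rfl fun j _ => by ring
      _ = ∑ j, ∑ i, ∑ l, M i j * (u i : ℝ) * (L j l * (x l : ℝ)) := by
          rw [Finset.sum_comm (s := Finset.univ) (t := Finset.univ)
            (f := fun j i => ∑ l, M i j * (u i : ℝ) * (L j l * (x l : ℝ)))]
          exact Finset.sum_congr rfl fun i _ => Finset.sum_comm
      _ = _ := by
          refine Finset.sum_congr rfl fun j _ => ?_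
          rw [Finset.sum_mul_sum]
  let good : Finset ι × Finset ι → (ι → ℤ) → Prop := fun IJ u =>
    u ≠ 0 ∧ (∀ i, u i ≠ 0 → i ∈ IJ.1) ∧ ∀ j, star u j ≠ 0 → j ∈ IJ.2
  let ψ : Finset ι × Finset ι → ι → ℤ := fun IJ =>
    if h : ∃ u, good IJ u then h.choose else 0
  let Ψ : Finset (ι → ℤ) := (Finset.univ.filter fun IJ => ∃ u, good IJ u).image ψ
  have hψ : ∀ IJ, (∃ u, good IJ u) → good IJ (ψ IJ) := fun IJ h => by
    simp only [ψ, dif_pos h]; exact h.choose_spec
  set δ : ℝ := Γ / 4 / (G + Fintype.card κ + 1) with hδ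
  have hδ0 : 0 < δ := by positivity
  obtain ⟨m₁, hm₁⟩ := eventually_le_rpow hb1
    (K' * (Fintype.card ι).factorial / |L.det|) (δ := Γ / 4) (by positivity)
  obtain ⟨m₂, hm₂⟩ := eventually_le_rpow hb1 (∑ u ∈ Ψ, ∑ j, |star u j|) (δ := Γ / 2)
    (by positivity)
  refine ⟨δ, Ψ, max (max m₁ m₂) 1, hδ0, ?_, fun m hm V j₀ hV hbox w hw hn hsmall => ?_⟩
  · intro u hu
    obtain ⟨IJ, hIJ, rfl⟩ := Finset.mem_image.mp hu
    exact (hψ IJ (Finset.mem_filter.mp hIJ).2).1
  have hm1 : m₁ ≤ m := le_trans (le_trans (le_max_left _ _) (le_max_left _ _)) hm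
  have hm2 : m₂ ≤ m := le_trans (le_trans (le_max_right _ _) (le_max_left _ _)) hm
  have hm0 : (0 : ℝ) < m := by exact_mod_cast (le_trans (le_max_right _ _) hm : 1 ≤ m)
  obtain ⟨hg0, hprop⟩ := normal_prop hV hw hn
  set u : ι → ℤ := fun i => V.adjugate j₀ i with hudef
  -- Claim A
  have hbs0 : ∀ a, (bs a : ℤ) ≠ 0 := fun a => by
    have := hbs a; exact_mod_cast (by omega : bs a ≠ 0)
  have claimA : ∀ (I : κ → ι) j, (∀ a, w (I a) ≠ 0) → star w j ≠ 0 →
      c j + Γ / 2 ≤ ∑ a, Real.logb b (bs a) * k a (I a) := by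
    intro I j hI hj
    obtain ⟨i, hi⟩ := Function.ne_iff.mp hw
    replace hi : w i ≠ 0 := hi
    have hui : u i ≠ 0 := by
      intro h0
      have := hprop i
      rw [show V.adjugate j₀ i = u i from rfl, h0, mul_zero] at this
      exact mul_ne_zero hV hi this.symm
    have huw : ∀ l, u i * w l = u l * w i := fun l => by
      refine mul_left_cancel₀ hg0 ?_
      have h1 := hprop i
      have h2 := hprop l
      change _ * u i = _ at h1
      change _ * u l = _ at h2
      linear_combination w l * h1 - w i * h2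
    set kI : ℝ := ∑ a, Real.logb b (bs a) * k a (I a) with hkI
    set kT : ℝ := ∑ a, Real.logb b (bs a) * ∑ l, (k a l : ℝ) with hkT
    have e1 : (b : ℝ) ^ (kT * m) ≤ (b : ℝ) ^ (kI * m) *
        ((b : ℝ) ^ (δ * m)) ^ Fintype.card κ * |(u i : ℝ)| := by
      have h1 : ∀ a, (bs a : ℤ) ^ (∑ l, k a l * m) ∣ u (I a) * (bs a : ℤ) ^ (k a (I a) * m) := by
        intro a
        have h1 := row_dvd_det (V.updateCol j₀ (Pi.single (I a) ((bs a : ℤ) ^ (k a (I a) * m))))
          (fun l => (bs a : ℤ) ^ (k a l * m)) (fun l j => by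
            rw [Matrix.updateCol_apply]
            split_ifs with h
            · rw [Pi.single_apply]
              split_ifs with h'
              · rw [h']
              · exact dvd_zero _
            · exact (hbox j h).1 a l)
        rw [det_updateCol_eq, Finset.prod_pow_eq_pow_sum] at h1
        simpa only [Pi.single_apply, mul_ite, mul_zero, Finset.sum_ite_eq', Finset.mem_univ,
          if_true] using h1
      have h2 := rpow_le_abs hb hbs hco (fun a => ∑ l, k a l * m)
        (x := (∏ a, (bs a : ℤ) ^ (k a (I a) * m)) * (∏ a, w (I a)) * u i)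
        (mul_ne_zero (mul_ne_zero (Finset.prod_ne_zero_iff.mpr fun a _ => pow_ne_zero _ (hbs0 a))
          (Finset.prod_ne_zero_iff.mpr fun a _ => hI a)) hui) fun a => by
          obtain ⟨y, hy⟩ := Finset.dvd_prod_of_mem (fun a => (bs a : ℤ) ^ (k a (I a) * m))
            (Finset.mem_univ a)
          obtain ⟨y', hy'⟩ := Finset.dvd_prod_of_mem (fun a => w (I a)) (Finset.mem_univ a)
          refine (h1 a).trans ⟨y * y' * w i, ?_⟩
          rw [hy, hy']
          linear_combination (bs a : ℤ) ^ (k a (I a) * m) * y * y' * huw (I a)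
      have h3 := rpow_sum_logb hb hbs fun a => k a (I a) * m
      rw [Int.cast_mul, Int.cast_mul, abs_mul, abs_mul] at h2
      simp only [Int.cast_prod, Int.cast_pow, Int.cast_natCast] at h2
      rw [← h3, abs_of_pos (a := (b : ℝ) ^ _) (by positivity), Finset.abs_prod] at h2
      have h4 : ∑ a, Real.logb b (bs a) * ((∑ l, k a l * m : ℕ) : ℝ) = kT * m := by
        rw [hkT, Finset.sum_mul]
        refine Finset.sum_congr rfl fun a _ => ?_
        push_cast
        rw [← Finset.sum_mul, mul_assoc]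
      have h5 : ∑ a, Real.logb b (bs a) * ((k a (I a) * m : ℕ) : ℝ) = kI * m := by
        rw [hkI, Finset.sum_mul]
        refine Finset.sum_congr rfl fun a _ => ?_
        push_cast
        rw [mul_assoc]
      rw [h4, h5] at h2
      refine h2.trans ?_
      gcongr
      calc ∏ a, |(w (I a) : ℝ)| ≤ ∏ _a : κ, (b : ℝ) ^ (δ * m) :=
            Finset.prod_le_prod (fun _ _ => abs_nonneg _) fun a _ => hsmall _
        _ = _ := by simp
    have e2 : (b : ℝ) ^ (c j * m) * (|L.det| * |star u j|) ≤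
        (Fintype.card ι).factorial * (b : ℝ) ^ ((∑ l, c l) * m) := by
      set Vr : Matrix ι ι ℝ := V.map (Int.castRingHom ℝ) with hVr
      have h1 := row_abs_det_le (L * Vr.updateCol j₀ fun l => M l j * (b : ℝ) ^ (c j * m))
        (fun l => (b : ℝ) ^ (c l * m)) (fun l j' => by
          rw [Matrix.mul_apply]
          by_cases h : j' = j₀
          · subst h
            simp only [Matrix.updateCol_self, ← mul_assoc, ← Finset.sum_mul]
            rw [← Matrix.mul_apply, hLM, Matrix.one_apply]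
            split_ifs with h'
            · rw [h', one_mul, abs_of_pos (by positivity)]
            · rw [zero_mul, abs_zero]; positivity
          · simp only [Matrix.updateCol_ne h]
            exact (hbox j' h).2 l)
      rw [Matrix.det_mul, det_updateCol_eq, ← Real.rpow_sum_of_pos hb0, ← Finset.sum_mul,
        abs_mul] at h1
      refine le_trans (le_of_eq ?_) h1
      have h2 : ∑ l, Vr.adjugate j₀ l * (M l j * (b : ℝ) ^ (c j * m)) =
          star u j * (b : ℝ) ^ (c j * m) := by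
        simp only [star, Finset.sum_mul]
        refine Finset.sum_congr rfl fun l _ => ?_
        have : Vr.adjugate j₀ l = (u l : ℝ) := by
          rw [hVr, ← RingHom.mapMatrix_apply, ← RingHom.map_adjugate]
          rfl
        rw [this]; ring
      rw [h2, abs_mul, abs_of_pos (a := (b : ℝ) ^ (c j * m)) (by positivity)]
      ring
    have e3 : (u i : ℝ) * star w j = star u j * w i := by
      have hg0' : ((∑ i, w i * V i j₀ : ℤ) : ℝ) ≠ 0 := by exact_mod_cast hg0
      have hp : ∀ l, ((∑ i, w i * V i j₀ : ℤ) : ℝ) * (u l : ℝ) = (V.det : ℝ) * w l := fun l => by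
        exact_mod_cast hprop l
      refine mul_left_cancel₀ hg0' ?_
      have h1 : ((∑ i, w i * V i j₀ : ℤ) : ℝ) * star u j = (V.det : ℝ) * star w j := by
        simp only [star, Finset.mul_sum]
        refine Finset.sum_congr rfl fun l _ => ?_
        linear_combination M l j * hp l
      linear_combination star w j * hp i - (w i : ℝ) * h1
    have hH1 : (1 : ℝ) ≤ (b : ℝ) ^ (δ * m) := Real.one_le_rpow hb1.le (by positivity)
    have e4 : 1 ≤ K' * ((b : ℝ) ^ (δ * m)) ^ G * |star w j| := by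
      refine (hK j w _ hH1 hsmall hj).trans (mul_le_mul_of_nonneg_right ?_ (abs_nonneg _))
      exact mul_le_mul (Finset.single_le_sum (f := K) (fun j _ => (hK0 j).le) (Finset.mem_univ j))
        (pow_le_pow_right₀ hH1 (Finset.le_sup (f := g) (Finset.mem_univ j))) (by positivity)
        (Finset.sum_nonneg fun j _ => (hK0 j).le)
    have hK'0 : 0 ≤ K' := Finset.sum_nonneg fun j _ => (hK0 j).le
    have hLd : 0 < |L.det| := abs_pos.mpr hdet
    have e5 := (hm₁ m hm1).le
    rw [div_le_iff₀ hLd] at e5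
    have e6 : ((b : ℝ) ^ (δ * m)) ^ G * ((b : ℝ) ^ (δ * m)) ^ Fintype.card κ *
        (b : ℝ) ^ (δ * m) = (b : ℝ) ^ (Γ / 4 * m) := by
      rw [← pow_add, ← pow_succ, ← Real.rpow_mul_natCast hb0.le]
      congr 1
      rw [hδ]
      push_cast
      field_simp
    have e7 : (b : ℝ) ^ (kT * m) * (b : ℝ) ^ (c j * m) * |L.det| ≤
        (b : ℝ) ^ (kI * m) * (b : ℝ) ^ (Γ / 4 * m) * (b : ℝ) ^ (Γ / 4 * m) *
          (b : ℝ) ^ ((∑ l, c l) * m) * |L.det| := by
      set Z := (b : ℝ) ^ (kI * m) * ((b : ℝ) ^ (δ * m)) ^ Fintype.card κ with hZ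
      have hZ0 : 0 < Z := by positivity
      calc (b : ℝ) ^ (kT * m) * (b : ℝ) ^ (c j * m) * |L.det|
          ≤ (Z * |(u i : ℝ)|) * (b : ℝ) ^ (c j * m) * |L.det| *
            (K' * ((b : ℝ) ^ (δ * m)) ^ G * |star w j|) := by
            refine le_trans ?_ (le_mul_of_one_le_right (by positivity) e4)
            gcongr
        _ = Z * (K' * ((b : ℝ) ^ (δ * m)) ^ G) * |(w i : ℝ)| *
            ((b : ℝ) ^ (c j * m) * (|L.det| * |star u j|)) := by
            have : |(u i : ℝ)| * |star w j| = |star u j| * |(w i : ℝ)| := by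
              rw [← abs_mul, ← abs_mul, e3]
            linear_combination (Z * (b : ℝ) ^ (c j * m) * |L.det| *
              (K' * ((b : ℝ) ^ (δ * m)) ^ G)) * this
        _ ≤ Z * (K' * ((b : ℝ) ^ (δ * m)) ^ G) * (b : ℝ) ^ (δ * m) *
            ((Fintype.card ι).factorial * (b : ℝ) ^ ((∑ l, c l) * m)) := by
            gcongr
            exact hsmall i
        _ = (b : ℝ) ^ (kI * m) * (b : ℝ) ^ (Γ / 4 * m) *
            (K' * (Fintype.card ι).factorial) * (b : ℝ) ^ ((∑ l, c l) * m) := by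
            rw [← e6, hZ]; ring
        _ ≤ (b : ℝ) ^ (kI * m) * (b : ℝ) ^ (Γ / 4 * m) *
            ((b : ℝ) ^ (Γ / 4 * m) * |L.det|) * (b : ℝ) ^ ((∑ l, c l) * m) := by gcongr
        _ = _ := by ring
    have e8 := le_of_mul_le_mul_right e7 hLd
    simp only [← Real.rpow_add hb0] at e8
    have e9 := (Real.rpow_le_rpow_left_iff hb1).mp e8
    have e10 : (c j + Γ / 2) * m ≤ kI * m := by rw [hΓ] at e9 ⊢; linarith
    exact le_of_mul_le_mul_right e10 hm0
  -- Claim B
  set IJ : Finset ι × Finset ι :=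
    (Finset.univ.filter fun i => w i ≠ 0, Finset.univ.filter fun j => star w j ≠ 0) with hIJ
  have hex : ∃ u, good IJ u := ⟨w, hw, fun i hi => by simp [hIJ, hi], fun j hj => by simp [hIJ, hj]⟩
  have hmem : ψ IJ ∈ Ψ := Finset.mem_image_of_mem _ (Finset.mem_filter.mpr ⟨Finset.mem_univ _, hex⟩)
  obtain ⟨-, hψ1, hψ2⟩ := hψ IJ hex
  refine ⟨ψ IJ, hmem, fun j hj => ?_⟩
  have hI : IJ.1.Nonempty := by
    obtain ⟨i, hi⟩ := Function.ne_iff.mp hw
    exact ⟨i, by simpa [hIJ] using hi⟩
  choose i₀ hi₀ hmin using fun a => Finset.exists_min_image IJ.1 (k a) hI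
  have hwi₀ : ∀ a, w (i₀ a) ≠ 0 := fun a => by simpa [hIJ] using hi₀ a
  set kI : ℝ := ∑ a, Real.logb b (bs a) * k a (i₀ a) with hkI
  by_contra hne
  have h0 := rpow_le_abs hb hbs hco (fun a => k a (i₀ a) * m) hne fun a =>
    Finset.dvd_sum fun i _ => by
      by_cases h : ψ IJ i = 0
      · rw [h, zero_mul]; exact dvd_zero _
      · exact ((pow_dvd_pow _ (Nat.mul_le_mul_right m (hmin a i (hψ1 i h)))).trans
          ((hbox j hj).1 a i)).mul_left _
  have h5 : ∑ a, Real.logb b (bs a) * ((k a (i₀ a) * m : ℕ) : ℝ) = kI * m := by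
    rw [hkI, Finset.sum_mul]
    refine Finset.sum_congr rfl fun a _ => ?_
    push_cast
    rw [mul_assoc]
  rw [h5] at h0
  refine absurd h0 (not_le.mpr ?_)
  · have h1 : |((∑ i, ψ IJ i * V i j : ℤ) : ℝ)| < (b : ℝ) ^ (kI * m) := by
      rw [hstar]
      calc |∑ l, star (ψ IJ) l * ∑ a, L l a * (V a j : ℝ)|
          ≤ ∑ l, |star (ψ IJ) l| * (b : ℝ) ^ ((kI - Γ / 2) * m) := by
            refine (Finset.abs_sum_le_sum_abs _ _).trans (Finset.sum_le_sum fun l _ => ?_)
            rw [abs_mul]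
            by_cases h : star (ψ IJ) l = 0
            · simp [h]
            · refine mul_le_mul_of_nonneg_left (((hbox j hj).2 l).trans ?_) (abs_nonneg _)
              refine Real.rpow_le_rpow_of_exponent_le hb1.le
                (mul_le_mul_of_nonneg_right ?_ hm0.le)
              have := claimA i₀ l hwi₀ (by simpa [hIJ] using hψ2 l h)
              linarith
        _ ≤ (∑ u ∈ Ψ, ∑ j, |star u j|) * (b : ℝ) ^ ((kI - Γ / 2) * m) := by
            rw [← Finset.sum_mul]
            exact mul_le_mul_of_nonneg_right (Finset.single_le_sum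
              (f := fun u => ∑ j, |star u j|)
              (fun _ _ => Finset.sum_nonneg fun _ _ => abs_nonneg _) hmem) (by positivity)
        _ < (b : ℝ) ^ (Γ / 2 * m) * (b : ℝ) ^ ((kI - Γ / 2) * m) :=
            mul_lt_mul_of_pos_right (hm₂ m hm2) (by positivity)
        _ = _ := by rw [← Real.rpow_add hb0]; congr 1; ring
    exact h1

end Pool.Agent.Subspace2
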