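import Pool.Agent.Shared.Subspace.Machine
import Pool.Agent.Shared.Subspace2.Dichotomy

/-!
The penultimate-minimum theorem for several bases.
-/

namespace Pool.Agent.Subspace2

open MvPolynomial Finsupp Pool.Agent.Subspace

/-- Hyperplanes spanned by points of the box have small height. -/
theorem small_heightF {κ ι : Type*} [Fintype κ] [Fintype ι] [DecidableEq ι] [Nonempty ι] (b : ℕ)
    (hb : 2 ≤ b) (bs : κ → ℕ) (hbs : ∀ a, 2 ≤ bs a)
    (hco : Pairwise fun a a' => Nat.Coprime (bs a) (bs a')) (k : κ → ι → ℕ) (c : ι → ℝ)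
    (L : Matrix ι ι ℝ) (hL : ∀ i j, IsAlgebraic ℚ (L i j)) (hdet : L.det ≠ 0)
    (hck : ∑ i, c i < ∑ a, Real.logb b (bs a) * ∑ i, (k a i : ℝ)) {δ : ℝ} (hδ : 0 < δ) :
    ∃ m₁ : ℕ, ∀ m : ℕ, m₁ ≤ m → ∀ (V : Matrix ι ι ℤ) (j₀ : ι), V.det ≠ 0 →
      (∀ j, j ≠ j₀ → InBoxF b bs k c L m fun i => V i j) →
      ∃ w : ι → ℤ, w ≠ 0 ∧ (∀ j, j ≠ j₀ → ∑ i, w i * V i j = 0) ∧
        ∀ i, |(w i : ℝ)| ≤ (b : ℝ) ^ (δ * m) := by
  by_contra hcon
  push Not at hcon
  have hb1 : (1 : ℝ) < b := by exact_mod_cast hb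
  have hb0 : (0 : ℝ) < b := by linarith
  have hlb : 0 < Real.log b := Real.log_pos hb1
  set n := Fintype.card ι with hn
  have hn0 : (0 : ℝ) < n := by exact_mod_cast Fintype.card_pos
  have hn1 : (1 : ℝ) ≤ n := by exact_mod_cast Fintype.card_pos
  set M := L⁻¹ with hM
  have hML : M * L = 1 := Matrix.nonsing_inv_mul L (Ne.isUnit hdet)
  set W : ℝ := ∑ a, Real.logb b (bs a) with hW
  have hW0 : 0 ≤ W := Finset.sum_nonneg fun a _ => logb_nonneg hb hbs a
  set γ : ℝ := (∑ a, Real.logb b (bs a) * ∑ i, (k a i : ℝ)) / n - (∑ i, c i) / n with hγ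
  have hγ0 : 0 < γ := by
    rw [hγ, ← sub_div]
    exact div_pos (by linarith) hn0
  obtain ⟨s₀, Ka, hKa, haux⟩ := aux_polyF M (isAlgebraic_inv L hL) (fun a i => (k a i : ℝ)) c
    (η := γ / 4 / (W + 1)) (by positivity)
  set s := max s₀ 1 with hs
  have hs1 : (1 : ℝ) ≤ s := by exact_mod_cast le_max_right s₀ 1
  set K : ℕ := Finset.univ.sup fun p : κ × ι => k p.1 p.2 with hK
  set c' : ℝ := ∑ i, |c i| with hc'
  have hc'0 : 0 ≤ c' := Finset.sum_nonneg fun _ _ => abs_nonneg _
  set θ : ℝ := γ / 8 / (W * K + c' + 1) with hθ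
  have hθ0 : 0 < θ := by positivity
  obtain ⟨σ, hσ, hroth⟩ := roth_lemma s (θ := θ / 2) (by positivity)
  set N : ℕ := ⌈2 * s * n / θ⌉₊ + 1 with hN
  have hN0 : 0 < N := Nat.succ_pos _
  have hN1 : (1 : ℝ) ≤ N := by exact_mod_cast hN0
  have hNθ : (s : ℝ) * n / N ≤ θ / 2 := by
    have h1 : 2 * s * n / θ ≤ N := by
      rw [hN]; push_cast; linarith [Nat.le_ceil (2 * s * n / θ)]
    rw [div_le_iff₀ hθ0] at h1
    rw [div_le_iff₀ (by positivity)]
    linarith
  set G : ℝ := (1 + ∑ i, ∑ j, |M i j|) * (n * N + ∑ i, ∑ j, |L i j|) with hG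
  have hG0 : 0 ≤ G := by positivity
  obtain ⟨m₁, hm₁⟩ := eventually_le_rpow hb1 (Ka * G) (δ := γ / 8) (by positivity)
  set M₀ : ℕ := max (max m₁ 1) ⌈(Real.log Ka + 1) * s / (σ * (δ / n) * Real.log b)⌉₊ with hM₀
  obtain ⟨m, hm, hlac⟩ := exists_lacunary hcon hσ M₀ s
  choose V j₀ hV hbox hht using fun h => (hm h).1
  have hM₀1 : 1 ≤ M₀ := le_trans (le_max_right _ _) (le_max_left _ _)
  have hM₀' : (0 : ℝ) < M₀ := by exact_mod_cast hM₀1
  have hm0 : ∀ h, 0 < m h := fun h => lt_of_lt_of_le hM₀1 (hm h).2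
  have hm0' : ∀ h, (0 : ℝ) < m h := fun h => by exact_mod_cast hm0 h
  set D : ℕ := ∏ h, m h with hD
  have hD0 : 0 < D := Finset.prod_pos fun h _ => hm0 h
  have hD0' : (0 : ℝ) < D := by exact_mod_cast hD0
  set d : Fin s → ℕ := fun h => D / m h with hd
  have hmd : ∀ h, m h * d h = D := fun h =>
    Nat.mul_div_cancel' (Finset.dvd_prod_of_mem _ (Finset.mem_univ h))
  have hmd' : ∀ h, (m h : ℝ) * d h = D := fun h => by exact_mod_cast hmd h
  have hd0 : ∀ h, 0 < d h := fun h => Nat.pos_of_mul_pos_left (hmd h ▸ hD0)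
  have hd0' : ∀ h, (0 : ℝ) < d h := fun h => by exact_mod_cast hd0 h
  have hE : (M₀ : ℝ) * ∑ h, (d h : ℝ) ≤ s * D := by
    rw [Finset.mul_sum]
    calc ∑ h, (M₀ : ℝ) * d h ≤ ∑ _h : Fin s, (D : ℝ) := Finset.sum_le_sum fun h _ => by
          rw [← hmd' h]
          exact mul_le_mul_of_nonneg_right (by exact_mod_cast (hm h).2) (hd0' h).le
      _ = _ := by simp
  obtain ⟨P, hP0, hhom, hPk, hPl, hPc⟩ := haux s (le_max_left _ _) d m D hD0 hmd
  let U : Fin s → ι → ι → ℤ := fun h i l => if l = j₀ h then 0 else V h i l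
  -- vanishing on the grid
  have hgrid : ∀ a : Fin s × ι → ℕ, (∀ p, a p < N) → IdxGe (fun p => 1 / (d p.1 : ℝ)) θ
      (shift (fun p : Fin s × ι => ∑ l, U p.1 p.2 l * a (p.1, l)) P) := by
    intro a ha μ hμ
    by_contra hc
    push Not at hc
    refine MvPolynomial.mem_support_iff.mp hμ (coeff_shift_eq_zeroF hb hbs hco k c L M hML m P (∑ h, d h)
      (fun ν hν => ?_) _ _ (s * D * (γ / 8)) hPk hPc K
      (fun a i => Finset.le_sup (f := fun p : κ × ι => k p.1 p.2) (Finset.mem_univ (a, i))) c' (fun i => ?_) (n * N)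
      (one_le_mul_of_one_le_of_one_le hn1 hN1) _
      (fun a p => Finset.dvd_sum fun l _ => Dvd.dvd.mul_right ?_ _)
      (fun h i => ?_) ?_ μ ?_)
    · rw [Fintype.sum_prod_type]
      exact le_of_eq (Finset.sum_congr rfl fun h _ => hhom ν hν h)
    · have := Finset.single_le_sum (f := fun i => |c i|) (fun _ _ => abs_nonneg _)
        (Finset.mem_univ i)
      linarith [neg_abs_le (c i)]
    · simp only [U]
      split_ifs with h
      · exact dvd_zero _
      · exact (hbox p.1 l h).1 a p.2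
    · have h1 : ∑ j, L i j * ((∑ l, U h j l * a (h, l) : ℤ) : ℝ) =
          ∑ l, (∑ j, L i j * (U h j l : ℝ)) * a (h, l) := by
        push_cast
        simp only [Finset.mul_sum, Finset.sum_mul]
        rw [Finset.sum_comm]
        exact Finset.sum_congr rfl fun l _ => Finset.sum_congr rfl fun j _ => by ring
      rw [h1]
      refine (Finset.abs_sum_le_sum_abs _ _).trans ?_
      calc ∑ l, |(∑ j, L i j * (U h j l : ℝ)) * a (h, l)|
          ≤ ∑ _l : ι, (b : ℝ) ^ (c i * m h) * N := by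
            refine Finset.sum_le_sum fun l _ => ?_
            rw [abs_mul, Nat.abs_cast]
            refine mul_le_mul ?_ (by exact_mod_cast (ha _).le) (by positivity) (by positivity)
            by_cases hl : l = j₀ h
            · simp only [U, if_pos hl]
              simp only [Int.cast_zero, mul_zero, Finset.sum_const_zero, abs_zero]
              positivity
            · simp only [U, if_neg hl]
              exact (hbox h l hl).2 i
        _ = _ := by simp [hn]; ring
    · calc l1 P * G ^ (∑ h, d h) ≤ (Ka * G) ^ (∑ h, d h) := by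
            rw [mul_pow Ka]
            exact mul_le_mul_of_nonneg_right hPl (pow_nonneg hG0 _)
        _ ≤ ((b : ℝ) ^ (γ / 8 * M₀)) ^ (∑ h, d h) :=
            pow_le_pow_left₀ (mul_nonneg (by linarith) hG0)
              (hm₁ M₀ (le_trans (le_max_left _ _) (le_max_left _ _))).le _
        _ ≤ _ := by
            rw [← Real.rpow_mul_natCast hb0.le]
            refine Real.rpow_le_rpow_of_exponent_le hb1.le ?_
            push_cast
            calc γ / 8 * M₀ * ∑ h, (d h : ℝ) = (M₀ * ∑ h, (d h : ℝ)) * (γ / 8) := by ring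
              _ ≤ _ := mul_le_mul_of_nonneg_right hE (by positivity)
    · have h1 : ∑ p : Fin s × ι, (m p.1 : ℝ) * μ p =
          D * weight (fun p : Fin s × ι => 1 / (d p.1 : ℝ)) μ := by
        rw [weight_eq_sum, Finset.mul_sum]
        refine Finset.sum_congr rfl fun p _ => ?_
        rw [← hmd' p.1, nsmul_eq_mul]
        field_simp [(hd0' p.1).ne']
      rw [h1]
      have h2 : (W * K + c') * (D * weight (fun p : Fin s × ι => 1 / (d p.1 : ℝ)) μ) ≤
          D * (γ / 8) := by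
        have h3 : (W * K + c') * θ ≤ γ / 8 := by
          rw [hθ, ← mul_div_assoc, div_le_iff₀ (by positivity)]
          linarith
        calc (W * K + c') * (D * weight (fun p : Fin s × ι => 1 / (d p.1 : ℝ)) μ)
            ≤ (W * K + c') * (D * θ) := by gcongr
          _ = D * ((W * K + c') * θ) := by ring
          _ ≤ _ := by gcongr
      have h4 : (D : ℝ) * (γ / 8) ≤ s * D * (γ / 8) := by
        rw [mul_assoc]
        exact le_mul_of_one_le_left (by positivity) hs1
      have h5 : 0 < (s : ℝ) * D * γ := by positivity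
      have h6 : ∑ a, Real.logb b (bs a) * ((s : ℝ) * D * ((∑ i, (k a i : ℝ)) / n -
          γ / 4 / (W + 1))) = s * D * (γ + (∑ i, c i) / n - W * (γ / 4 / (W + 1))) := by
        rw [hγ, sub_add_cancel, ← hγ, hW, Finset.sum_div, Finset.sum_mul, ← Finset.sum_sub_distrib,
          Finset.mul_sum]
        exact Finset.sum_congr rfl fun a _ => by ring
      have h7 : W * (γ / 4 / (W + 1)) + γ / 4 / (W + 1) = γ / 4 := by field_simp
      have h8 : (s : ℝ) * D * (W * (γ / 4 / (W + 1)) + γ / 4 / (W + 1)) = s * D * (γ / 4) := by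
        rw [h7]
      rw [← hn, h6, ← hW]
      linarith
  -- normal vectors
  have hnormal : ∀ h, ∃ (ρ : ι → ℚ) (a e : ι), a ≠ e ∧ ρ a = 1 ∧
      (∀ j, j ≠ j₀ h → ∑ i, ρ i * V h i j = 0) ∧ (b : ℝ) ^ (δ / n * m h) ≤ (ρ e).den := by
    intro h
    set w : ι → ℤ := fun i => (V h).adjugate (j₀ h) i with hw
    have hw1 : ∀ j, ∑ i, w i * V h i j = if j₀ h = j then (V h).det else 0 := by
      intro j
      rw [← Matrix.mul_apply, Matrix.adjugate_mul, Matrix.smul_apply, Matrix.one_apply]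
      simp
    obtain ⟨a, -, ha⟩ := Finset.exists_max_image Finset.univ (fun i => |w i|) Finset.univ_nonempty
    have hwa : w a ≠ 0 := by
      intro h0
      have h1 : ∀ i, w i = 0 := fun i => by simpa [h0] using ha i (Finset.mem_univ i)
      have h2 := hw1 (j₀ h)
      simp [h1] at h2
      exact hV h h2.symm
    have hwa' : (w a : ℚ) ≠ 0 := by exact_mod_cast hwa
    have hρn : ∀ j, j ≠ j₀ h → ∑ i, (w i : ℚ) / w a * V h i j = 0 := by
      intro j hj
      have h1 := hw1 j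
      rw [if_neg (Ne.symm hj)] at h1
      have h2 : ∑ i, (w i : ℚ) * V h i j = 0 := by exact_mod_cast h1
      calc ∑ i, (w i : ℚ) / w a * V h i j = (∑ i, (w i : ℚ) * V h i j) / w a := by
            rw [Finset.sum_div]
            exact Finset.sum_congr rfl fun i _ => by ring
        _ = 0 := by rw [h2, zero_div]
    obtain ⟨e, hae, he⟩ := pair_height (fun i => (w i : ℚ) / w a) a (div_self hwa')
      (fun i => by
        rw [abs_div, div_le_one (abs_pos.mpr hwa')]
        exact_mod_cast ha i (Finset.mem_univ i))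
      (B := (b : ℝ) ^ (δ / n * m h))
      (Real.one_lt_rpow hb1 (by have := hm0' h; positivity)) (fun w' Q hQ hw' => by
        rw [← Real.rpow_mul_natCast hb0.le, ← hn,
          show δ / n * m h * n = δ * m h by field_simp]
        refine hht h w' (fun h0 => ?_) fun j hj => ?_
        · have := hw' a
          rw [h0, div_self hwa', mul_one] at this
          exact hQ (by simpa using this.symm)
        · have h1 : ∑ i, (w' i : ℚ) * V h i j = 0 := by
            simp only [hw', mul_assoc, ← Finset.mul_sum]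
            rw [hρn j hj, mul_zero]
          exact_mod_cast h1)
    exact ⟨_, a, e, hae, div_self hwa', hρn, he⟩
  choose ρ a e hae hρa hρn hρe using hnormal
  obtain ⟨R, hR0, hRl, hRd, hRi⟩ := hyper_spec P hP0 d hhom ρ a e hae hρa
    (fun h => 1 / (d h : ℝ)) (fun h => by positivity) (θ / 2) (fun μ hμ Y hY => by
      choose α hα using fun h => exists_coords (hV h) (ρ := ρ h)
        (fun h0 => by simpa [h0] using hρa h) (hρn h) (fun i => Y (h, i)) (hY h)
      have := grid_step P d hd0 hhom U hN0 hNθ hgrid μ hμ (fun p => α p.1 p.2)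
      rw [← this]
      congr 2
      funext p
      exact hα p.1 p.2)
  refine hroth d (fun h => -ρ h (e h)) R hR0 hd0 (fun h h' hh => ?_) hRd (fun h => ?_) hRi
  · have h1 := hlac h h' hh
    refine le_of_mul_le_mul_left ?_ (hm0' h)
    rw [hmd' h, ← hmd' h']
    calc (m h' : ℝ) * d h' ≤ σ * m h * d h' := mul_le_mul_of_nonneg_right h1 (hd0' h').le
      _ = _ := by ring
  · have hKa0 : 0 ≤ Real.log Ka := Real.log_nonneg hKa
    have h1 : Real.log (l1 R) ≤ (∑ h, (d h : ℝ)) * Real.log Ka := by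
      have h2 := Real.log_le_log (lt_of_lt_of_le one_pos (one_le_l1 hR0)) (hRl.trans hPl)
      rw [Real.log_pow] at h2
      push_cast at h2
      exact h2
    have h2 : δ / n * m h * Real.log b ≤ Real.log (-ρ h (e h)).den := by
      rw [Rat.neg_den, ← Real.log_rpow hb0]
      exact Real.log_le_log (by positivity) (hρe h)
    have h3 : (Real.log Ka + 1) * s ≤ M₀ * (σ * (δ / n) * Real.log b) := by
      rw [← div_le_iff₀ (by positivity)]
      exact Nat.ceil_le.mp (le_max_right _ _)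
    have h4 : (Real.log Ka + 1) * ∑ h, (d h : ℝ) ≤ σ * (δ / n) * Real.log b * D := by
      refine le_of_mul_le_mul_left ?_ hM₀'
      calc (M₀ : ℝ) * ((Real.log Ka + 1) * ∑ h, (d h : ℝ))
          = (Real.log Ka + 1) * (M₀ * ∑ h, (d h : ℝ)) := by ring
        _ ≤ (Real.log Ka + 1) * (s * D) := by gcongr
        _ = (Real.log Ka + 1) * s * D := by ring
        _ ≤ M₀ * (σ * (δ / n) * Real.log b) * D := by gcongr
        _ = _ := by ring
    calc Real.log (l1 R) + ∑ h, (d h : ℝ) ≤ σ * (δ / n) * Real.log b * D := by linarith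
      _ = σ * d h * (δ / n * m h * Real.log b) := by rw [← hmd' h]; ring
      _ ≤ _ := mul_le_mul_of_nonneg_left h2 (by have := hd0' h; positivity)

theorem penultF {κ ι : Type*} [Fintype κ] [Fintype ι] [DecidableEq ι] (b : ℕ)
    (hb : 2 ≤ b) (bs : κ → ℕ) (hbs : ∀ a, 2 ≤ bs a)
    (hco : Pairwise fun a a' => Nat.Coprime (bs a) (bs a')) (k : κ → ι → ℕ) (c : ι → ℝ)
    (L : Matrix ι ι ℝ) (hL : ∀ i j, IsAlgebraic ℚ (L i j)) (hdet : L.det ≠ 0)
    (hck : ∑ i, c i < ∑ a, Real.logb b (bs a) * ∑ i, (k a i : ℝ)) :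
    ∃ (Ψ : Finset (ι → ℤ)) (m₀ : ℕ), (∀ ψ ∈ Ψ, ψ ≠ 0) ∧ ∀ m : ℕ, m₀ ≤ m →
      ∀ (V : Matrix ι ι ℤ) (j₀ : ι), V.det ≠ 0 →
        (∀ j, j ≠ j₀ → InBoxF b bs k c L m fun i => V i j) →
        ∃ ψ ∈ Ψ, ∀ j, j ≠ j₀ → ∑ i, ψ i * V i j = 0 := by
  rcases isEmpty_or_nonempty ι with hι | hι
  · exact ⟨∅, 0, by simp, fun _ _ _ j₀ => hι.elim j₀⟩
  obtain ⟨δ, Ψ, m₀, hδ, hΨ, H⟩ := dichotomyF b hb bs hbs hco k c L hL hdet hck
  obtain ⟨m₁, H'⟩ := small_heightF b hb bs hbs hco k c L hL hdet hck hδ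
  refine ⟨Ψ, max m₀ m₁, hΨ, fun m hm V j₀ hV hbox => ?_⟩
  obtain ⟨w, hw0, hwn, hws⟩ := H' m (le_trans (le_max_right _ _) hm) V j₀ hV hbox
  exact H m (le_trans (le_max_left _ _) hm) V j₀ hV hbox w hw0 hwn hws

end Pool.Agent.Subspace2
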