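import Pool.Agent.Shared.Subspace.MainStep
import Pool.Agent.Shared.Subspace2.Penult

/-!
The compound-matrix step for several bases.
-/

namespace Pool.Agent.Subspace2

open Matrix Pool.Agent.Subspace

theorem stepF {κ : Type*} [Fintype κ] {n : ℕ} (b : ℕ) (hb : 2 ≤ b) (bs : κ → ℕ)
    (hbs : ∀ a, 2 ≤ bs a) (hco : Pairwise fun a a' => Nat.Coprime (bs a) (bs a'))
    (k : κ → Fin n → ℕ) (c : Fin n → ℝ)
    (L : Matrix (Fin n) (Fin n) ℝ) (hL : ∀ i j, IsAlgebraic ℚ (L i j)) (hdet : L.det ≠ 0)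
    (p : Fin n) (π : Equiv.Perm (Fin n)) (g : Fin n → ℝ) {β δ θ : ℝ} (hδ : 0 < δ) (hθ : 0 ≤ θ)
    (hsum : ∑ i, c i + ∑ i, g i - ∑ a, Real.logb b (bs a) * ∑ i, (k a i : ℝ) ≤ θ)
    (hβ : 2 ^ n * (θ + δ) < β) :
    ∃ (Ψ : Finset (Fin n → ℤ)) (m₀ : ℕ), (∀ ψ ∈ Ψ, ψ ≠ 0) ∧ ∀ m : ℕ, m₀ ≤ m →
      ∀ (Y : Matrix (Fin n) (Fin n) ℤ) (μ : Fin n → ℝ), Y.det ≠ 0 → (∀ i, 0 < μ i) →
        Monotone μ →
        (∀ i j, |∑ l, L (π i) l * ((dd bs k l : ℝ) ^ m * Y l j)| ≤
          (b : ℝ) ^ (c (π i) * m) * μ (min i j)) →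
        (∀ i, μ i ≤ (b : ℝ) ^ (g i * m)) → (∀ j, j < p → μ j * (b : ℝ) ^ (β * m) ≤ μ p) →
        ∃ ψ ∈ Ψ, ∀ a : Fin n → ℤ, (∀ j, p ≤ j → a j = 0) →
          ∑ i, ψ i * ((dd bs k i : ℤ) ^ m * Y.mulVec a i) = 0 := by
  classical
  have hb1 : (1 : ℝ) < b := by exact_mod_cast hb
  have hb0 : (0 : ℝ) < b := by positivity
  have hβ0 : 0 < β := lt_of_le_of_lt (by positivity) hβ
  set q : ℕ := (Finset.Ici p).card with hq
  have hq0 : 0 < q := Finset.card_pos.mpr ⟨p, Finset.mem_Ici.mpr le_rfl⟩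
  let I₀ : Subspace.Sub n q := ⟨Finset.Ici p, rfl⟩
  let L' : Matrix (Subspace.Sub n q) (Subspace.Sub n q) ℝ := Subspace.comp q (L.submatrix π id)
  let k' : κ → Subspace.Sub n q → ℕ := fun a S => ∑ i ∈ S.1, k a i
  let c' : Subspace.Sub n q → ℝ := fun S => ∑ i ∈ S.1, (c (π i) + g i) + δ - if S = I₀ then β else 0
  have hL' : ∀ S T, IsAlgebraic ℚ (L' S T) := fun S T => isAlgebraic_det _ fun a a' => hL _ _
  have hdet' : L'.det ≠ 0 := by
    refine comp_det_ne_zero ?_
    rw [Matrix.det_permute]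
    refine mul_ne_zero ?_ hdet
    rcases Int.units_eq_one_or (Equiv.Perm.sign π) with h | h <;> simp [h]
  have hck' : ∑ S, c' S < ∑ a, Real.logb b (bs a) * ∑ S, (k' a S : ℝ) := by
    obtain ⟨N, hN, hf⟩ := sum_sub_sum n q
    have h1 : ∑ S, c' S = N * (∑ i, c i + ∑ i, g i) + Fintype.card (Subspace.Sub n q) * δ - β := by
      simp only [c']
      rw [Finset.sum_sub_distrib, Finset.sum_add_distrib, hf, Finset.sum_add_distrib,
        Equiv.sum_comp π c]
      simp
    have h2 : ∑ a, Real.logb b (bs a) * ∑ S, (k' a S : ℝ) =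
        N * ∑ a, Real.logb b (bs a) * ∑ i, (k a i : ℝ) := by
      rw [Finset.mul_sum]
      refine Finset.sum_congr rfl fun a _ => ?_
      simp only [k']
      push_cast
      rw [hf, mul_left_comm]
    have h3 : (Fintype.card (Subspace.Sub n q) : ℝ) ≤ 2 ^ n := by exact_mod_cast card_sub_le n q
    have h4 : (N : ℝ) ≤ 2 ^ n := le_trans (by exact_mod_cast hN) h3
    have h5 : (N : ℝ) * (∑ i, c i + ∑ i, g i -
        ∑ a, Real.logb b (bs a) * ∑ i, (k a i : ℝ)) ≤ 2 ^ n * θ :=
      (mul_le_mul_of_nonneg_left hsum (Nat.cast_nonneg _)).trans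
        (mul_le_mul_of_nonneg_right h4 hθ)
    have h6 : (Fintype.card (Subspace.Sub n q) : ℝ) * δ ≤ 2 ^ n * δ :=
      mul_le_mul_of_nonneg_right h3 hδ.le
    rw [h1, h2]
    nlinarith
  obtain ⟨Ψ', m₀, hΨ', hm₀⟩ := penultF b hb bs hbs hco k' c' L' hL' hdet' hck'
  obtain ⟨m₁, hm₁⟩ := exists_lt_rpow b hb (q.factorial : ℝ) hδ
  have hex : ∀ ω : Subspace.Sub n q → ℤ, ∃ ψ : Fin n → ℤ, ω ≠ 0 → ψ ≠ 0 ∧
      ∀ (V : Matrix (Fin n) (Fin n) ℤ) (I₀ : Subspace.Sub n q), V.det ≠ 0 →
      (∀ J, J ≠ I₀ → ∑ S, ω S * Subspace.comp q V S J = 0) →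
      ∀ a : Fin n → ℤ, (∀ j ∈ I₀.1, a j = 0) → ∑ i, ψ i * V.mulVec a i = 0 := by
    intro ω
    by_cases h : ω = 0
    · exact ⟨0, fun h' => absurd h h'⟩
    · obtain ⟨ψ, hψ⟩ := exists_psi hq0 ω h
      exact ⟨ψ, fun _ => hψ⟩
  choose F hF using hex
  refine ⟨Ψ'.image F, max m₀ m₁, ?_, ?_⟩
  · intro ψ hψ
    obtain ⟨ω, hω, rfl⟩ := Finset.mem_image.mp hψ
    exact (hF ω (hΨ' ω hω)).1
  intro m hm Y μ hY hμ hmono hent hg hgap
  let V : Matrix (Fin n) (Fin n) ℤ := Matrix.diagonal (fun l => (dd bs k l : ℤ) ^ m) * Y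
  have hV : ∀ l j, V l j = (dd bs k l : ℤ) ^ m * Y l j := fun l j => by
    simp [V, Matrix.diagonal_mul]
  have hVdet : V.det ≠ 0 := by
    rw [Matrix.det_mul, Matrix.det_diagonal]
    refine mul_ne_zero (Finset.prod_ne_zero_iff.mpr fun i _ => pow_ne_zero _ ?_) hY
    exact_mod_cast (dd_pos hbs k i).ne'
  have hbox : ∀ J, J ≠ I₀ → InBoxF b bs k' c' L' m fun S => Subspace.comp q V S J := by
    intro J hJ
    constructor
    · intro e S
      have h1 : V.submatrix S.emb J.emb =
          Matrix.diagonal (fun a => (dd bs k (S.emb a) : ℤ) ^ m) * Y.submatrix S.emb J.emb := by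
        ext a a'
        simp [hV, Matrix.diagonal_mul]
      simp only [Subspace.comp_apply, k']
      rw [h1, Matrix.det_mul, Matrix.det_diagonal,
        S.prod_emb fun i => (dd bs k i : ℤ) ^ m, Finset.sum_mul, ← Finset.prod_pow_eq_pow_sum]
      refine Dvd.dvd.mul_right (Finset.prod_dvd_prod_of_dvd _ _ fun i _ => ?_) _
      rw [dd_pow]
      exact Finset.dvd_prod_of_mem (fun a => (bs a : ℤ) ^ (k a i * m)) (Finset.mem_univ e)
    · intro S
      let f := Int.castRingHom ℝ
      have h1 : ∑ T, L' S T * ((Subspace.comp q V T J : ℤ) : ℝ) =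
          ((L.submatrix π id * V.map f).submatrix S.emb J.emb).det := by
        rw [← Subspace.comp_apply, Subspace.comp_mul (L.submatrix π id), Matrix.mul_apply,
          Subspace.comp_map]
        rfl
      rw [h1]
      let r : Fin q → ℝ := fun a => (b : ℝ) ^ ((c (π (S.emb a)) + g (S.emb a)) * m)
      let s : Fin q → ℝ := fun a => if S = I₀ ∧ J.emb a < p then (b : ℝ) ^ (-(β * m)) else 1
      have hs1 : ∀ a, s a ≤ 1 := by
        intro a
        simp only [s]
        split_ifs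
        · exact Real.rpow_le_one_of_one_le_of_nonpos hb1.le (by
            have : 0 ≤ β * m := by positivity
            linarith)
        · exact le_rfl
      have hs0 : ∀ a, 0 ≤ s a := by
        intro a
        simp only [s]
        split_ifs <;> positivity
      have h2 : ∀ a a', |((L.submatrix π id * V.map f).submatrix S.emb J.emb) a a'| ≤
          r a * s a' := by
        intro a a'
        have h3 : ((L.submatrix π id * V.map f).submatrix S.emb J.emb) a a' =
            ∑ l, L (π (S.emb a)) l * ((dd bs k l : ℝ) ^ m * Y l (J.emb a')) := by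
          simp [Matrix.mul_apply, hV, f]
        rw [h3]
        refine (hent _ _).trans ?_
        simp only [r]
        rw [add_mul, Real.rpow_add hb0, mul_assoc]
        refine mul_le_mul_of_nonneg_left ?_ (by positivity)
        simp only [s]
        split_ifs with h
        · obtain ⟨hS, hlt⟩ := h
          have h4 : p ≤ S.emb a := by
            have := S.emb_mem a
            rw [hS] at this
            rw [hS]
            exact Finset.mem_Ici.mp this
          have h5 : μ (min (S.emb a) (J.emb a')) ≤ μ (J.emb a') := hmono (min_le_right _ _)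
          have h6 := hgap _ hlt
          have h7 : μ p ≤ (b : ℝ) ^ (g (S.emb a) * m) := (hmono h4).trans (hg _)
          rw [Real.rpow_neg hb0.le, ← div_eq_mul_inv, le_div_iff₀ (by positivity)]
          calc _ ≤ μ (J.emb a') * (b : ℝ) ^ (β * m) :=
                mul_le_mul_of_nonneg_right h5 (by positivity)
            _ ≤ _ := h6.trans h7
        · rw [mul_one]
          exact (hmono (min_le_left _ _)).trans (hg _)
      refine (abs_det_le _ r s h2).trans ?_
      have h8 : ∏ a, r a = (b : ℝ) ^ ((∑ i ∈ S.1, (c (π i) + g i)) * m) := by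
        simp only [r]
        rw [S.prod_emb fun i => (b : ℝ) ^ ((c (π i) + g i) * m), Finset.sum_mul,
          Real.rpow_sum_of_pos hb0]
      have h9 : ∏ a, s a ≤ (b : ℝ) ^ (-((if S = I₀ then β else 0) * m)) := by
        split_ifs with h
        · obtain ⟨a, ha⟩ := Sub.exists_not_mem hJ
          have ha' : J.emb a < p := by
            by_contra hc
            exact ha (Finset.mem_Ici.mpr (not_lt.mp hc))
          rw [← Finset.mul_prod_erase _ _ (Finset.mem_univ a)]
          have h10 : s a = (b : ℝ) ^ (-(β * m)) := by simp [s, h, ha']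
          rw [h10]
          exact mul_le_of_le_one_right (by positivity)
            (Finset.prod_le_one (fun i _ => hs0 i) fun i _ => hs1 i)
        · simp only [zero_mul, neg_zero, Real.rpow_zero]
          exact Finset.prod_le_one (fun i _ => hs0 i) fun i _ => hs1 i
      have h11 := (hm₁ m (le_trans (le_max_right _ _) hm)).le
      rw [Fintype.card_fin, h8]
      calc _ ≤ (b : ℝ) ^ (δ * m) * ((b : ℝ) ^ ((∑ i ∈ S.1, (c (π i) + g i)) * m) *
            (b : ℝ) ^ (-((if S = I₀ then β else 0) * m))) :=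
            mul_le_mul h11 (mul_le_mul_of_nonneg_left h9 (by positivity))
              (mul_nonneg (by positivity) (Finset.prod_nonneg fun i _ => hs0 i)) (by positivity)
        _ = _ := by
            rw [← Real.rpow_add hb0, ← Real.rpow_add hb0]
            congr 1
            simp only [c']
            ring
  obtain ⟨ω, hω, hωV⟩ := hm₀ m (le_trans (le_max_left _ _) hm) (Subspace.comp q V) I₀
    (comp_det_ne_zero_int hVdet) hbox
  refine ⟨F ω, Finset.mem_image_of_mem _ hω, fun a ha => ?_⟩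
  have := (hF ω (hΨ' ω hω)).2 V I₀ hVdet hωV a fun j hj => ha j (Finset.mem_Ici.mp hj)
  rw [← this]
  refine Finset.sum_congr rfl fun i _ => ?_
  congr 1
  simp only [V]
  rw [← Matrix.mulVec_mulVec, Matrix.mulVec_diagonal]

end Pool.Agent.Subspace2
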