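import Pool.Agent.Shared.Subspace.MainParam
import Pool.Agent.Shared.Subspace2.MainStep

/-!
The parametric Subspace Theorem for several bases.
-/

namespace Pool.Agent.Subspace2

open Matrix Pool.Agent.Subspace

theorem parametric_auxF {κ : Type*} [Fintype κ] {n : ℕ} (hn : 1 ≤ n) (b : ℕ) (hb : 2 ≤ b)
    (bs : κ → ℕ) (hbs : ∀ a, 2 ≤ bs a) (hco : Pairwise fun a a' => Nat.Coprime (bs a) (bs a'))
    (k : κ → Fin n → ℕ) (c : Fin n → ℝ)
    (L : Matrix (Fin n) (Fin n) ℝ) (hL : ∀ i j, IsAlgebraic ℚ (L i j)) (hdet : L.det ≠ 0)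
    (hck : ∑ i, c i < ∑ a, Real.logb b (bs a) * ∑ i, (k a i : ℝ)) :
    ∃ (Ψ : Finset (Fin n → ℤ)) (m₀ : ℕ), (∀ ψ ∈ Ψ, ψ ≠ 0) ∧ ∀ m : ℕ, m₀ ≤ m →
      ∃ ψ ∈ Ψ, ∀ x : Fin n → ℤ, InBoxF b bs k c L m x → ∑ i, ψ i * x i = 0 := by
  classical
  have hb1 : (1 : ℝ) < b := by exact_mod_cast hb
  have hb0 : (0 : ℝ) < b := by positivity
  have hn0 : (0 : ℝ) < n := by exact_mod_cast hn
  have hn1 : (1 : ℝ) ≤ n := by exact_mod_cast hn
  obtain ⟨K, hK, hred⟩ := reduced_basis n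
  obtain ⟨C, hC⟩ := exists_lower L hdet
  set kT : ℝ := ∑ a, Real.logb b (bs a) * ∑ i, (k a i : ℝ) with hkT
  set Γ : ℝ := kT - ∑ i, c i with hΓ
  have hΓ0 : 0 < Γ := by rw [hΓ]; linarith
  set β : ℝ := Γ / n ^ 2 with hβ
  have hβ0 : 0 < β := by positivity
  set δ : ℝ := β / (2 ^ n * (n + 3)) with hδ
  have hδ0 : 0 < δ := by positivity
  have hβδ : 2 ^ n * ((n + 1) * δ + δ) < β := by
    have : β = 2 ^ n * ((n + 3) * δ) := by rw [hδ]; field_simp
    rw [this]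
    refine mul_lt_mul_of_pos_left ?_ (by positivity)
    nlinarith
  set cm : ℝ := ∑ i, |c i| + 1 with hcm
  have hcm0 : 0 ≤ cm := by positivity
  have hci : ∀ i, c i + 1 ≤ cm := fun i => by
    have := Finset.single_le_sum (f := fun i => |c i|) (fun i _ => abs_nonneg _)
      (Finset.mem_univ i)
    have := le_abs_self (c i)
    rw [hcm]; linarith
  set W : ℝ := Γ + δ + (n + 1) * cm with hW
  set G : ℤ := ⌈W / δ⌉ + 1 with hG
  have hex : ∀ t : Fin n × Equiv.Perm (Fin n) × (Fin n → ℤ),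
      ∃ (Ψ : Finset (Fin n → ℤ)) (m₀ : ℕ), (∀ ψ ∈ Ψ, ψ ≠ 0) ∧
      (∑ i, c i + ∑ i, (t.2.2 i : ℝ) * δ - kT ≤ (n + 1) * δ → ∀ m : ℕ, m₀ ≤ m →
      ∀ (Y : Matrix (Fin n) (Fin n) ℤ) (μ : Fin n → ℝ), Y.det ≠ 0 → (∀ i, 0 < μ i) →
        Monotone μ →
        (∀ i j, |∑ l, L (t.2.1 i) l * ((dd bs k l : ℝ) ^ m * Y l j)| ≤
          (b : ℝ) ^ (c (t.2.1 i) * m) * μ (min i j)) →
        (∀ i, μ i ≤ (b : ℝ) ^ ((t.2.2 i : ℝ) * δ * m)) →
        (∀ j, j < t.1 → μ j * (b : ℝ) ^ (β * m) ≤ μ t.1) →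
        ∃ ψ ∈ Ψ, ∀ a : Fin n → ℤ, (∀ j, t.1 ≤ j → a j = 0) →
          ∑ i, ψ i * ((dd bs k i : ℤ) ^ m * Y.mulVec a i) = 0) := by
    intro t
    by_cases h : ∑ i, c i + ∑ i, (t.2.2 i : ℝ) * δ - kT ≤ (n + 1) * δ
    · obtain ⟨Ψ, m₀, h1, h2⟩ := stepF b hb bs hbs hco k c L hL hdet t.1 t.2.1 (fun i => (t.2.2 i : ℝ) * δ)
        hδ0 (by positivity) h hβδ
      exact ⟨Ψ, m₀, h1, fun _ => h2⟩
    · exact ⟨∅, 0, by simp, fun h' => absurd h' h⟩
  choose Ψ m₀ hΨ hstep using hex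
  let T : Finset (Fin n × Equiv.Perm (Fin n) × (Fin n → ℤ)) :=
    Finset.univ ×ˢ Finset.univ ×ˢ Fintype.piFinset fun _ => Finset.Icc (-G) G
  have hdL : 0 < |L.det| := abs_pos.mpr hdet
  obtain ⟨m₁, hm₁⟩ := exists_lt_rpow b hb (K * |L.det|) hδ0
  obtain ⟨m₂, hm₂⟩ := exists_lt_rpow b hb (n.factorial * K ^ n / |L.det|)
    (show 0 < Γ / n by positivity)
  obtain ⟨m₃, hm₃⟩ := exists_lt_rpow b hb C one_pos
  refine ⟨T.biUnion Ψ, T.sup m₀ + m₁ + m₂ + m₃ + 1, ?_, ?_⟩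
  · intro ψ hψ
    obtain ⟨t, -, ht⟩ := Finset.mem_biUnion.mp hψ
    exact hΨ t ψ ht
  intro m hm
  have hm0 : (0 : ℝ) < m := by exact_mod_cast (by omega : 0 < m)
  replace hm₁ := hm₁ m (by omega)
  replace hm₂ := hm₂ m (by omega)
  replace hm₃ := hm₃ m (by omega)
  let A : Matrix (Fin n) (Fin n) ℝ := Matrix.diagonal (fun i => (b : ℝ) ^ (-(c i * m))) * L *
    Matrix.diagonal (fun l => (dd bs k l : ℝ) ^ m)
  have hA : ∀ i l, A i l = (b : ℝ) ^ (-(c i * m)) * L i l * (dd bs k l : ℝ) ^ m := by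
    intro i l
    simp [A, Matrix.diagonal_mul, Matrix.mul_diagonal]
  have hAv : ∀ (i : Fin n) (y : Fin n → ℤ), ∑ l, L i l * ((dd bs k l : ℝ) ^ m * y l) =
      (b : ℝ) ^ (c i * m) * ∑ l, A i l * (y l : ℝ) := by
    intro i y
    rw [Finset.mul_sum]
    refine Finset.sum_congr rfl fun l _ => ?_
    rw [hA, Real.rpow_neg hb0.le]
    field_simp
  have hAdet : |A.det| = |L.det| * (b : ℝ) ^ (Γ * m) := by
    simp only [A, dd_pow_real hb hbs]
    rw [Matrix.det_mul, Matrix.det_mul, Matrix.det_diagonal, Matrix.det_diagonal,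
      ← Real.rpow_sum_of_pos hb0, ← Real.rpow_sum_of_pos hb0, abs_mul,
      abs_mul, abs_of_pos (Real.rpow_pos_of_pos hb0 _), abs_of_pos (Real.rpow_pos_of_pos hb0 _),
      mul_right_comm, ← Real.rpow_add hb0, mul_comm]
    congr 2
    rw [hΓ, hkT, sub_mul, Finset.sum_neg_distrib, ← Finset.sum_mul, ← Finset.sum_mul,
      Finset.sum_comm]
    simp only [Finset.mul_sum]
    ring
  have hAdet0 : A.det ≠ 0 := by
    rw [← abs_pos, hAdet]; positivity
  obtain ⟨Y, π, μ, hμ, hmono, hY, hent, hprod, hspan⟩ := hred A hAdet0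
  have hent' : ∀ i j, |∑ l, L (π i) l * ((dd bs k l : ℝ) ^ m * Y l j)| ≤
      (b : ℝ) ^ (c (π i) * m) * μ (min i j) := by
    intro i j
    rw [hAv (π i) fun l => Y l j, abs_mul, abs_of_pos (Real.rpow_pos_of_pos hb0 _)]
    exact mul_le_mul_of_nonneg_left (hent i j) (by positivity)
  -- the gap
  have hlow : |A.det| ≤ n.factorial * ∏ i, μ i := by
    have h1 := abs_det_le ((A * Y.map (Int.castRingHom ℝ)).submatrix π id) μ (fun _ => 1)
      (fun i j => by
        rw [mul_one]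
        refine le_trans (le_of_eq ?_) ((hent i j).trans (hmono (min_le_left _ _)))
        simp [Matrix.mul_apply])
    rw [Matrix.det_permute, abs_mul, Matrix.det_mul, abs_mul] at h1
    have h2 : |((Equiv.Perm.sign π : ℤ) : ℝ)| = 1 := by
      rcases Int.units_eq_one_or (Equiv.Perm.sign π) with h | h <;> simp [h]
    rw [h2, one_mul] at h1
    simp only [Fintype.card_fin, Finset.prod_const_one, mul_one] at h1
    exact (le_mul_of_one_le_right (abs_nonneg _) (one_le_abs_det_int hY)).trans h1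
  set B : ℝ := (b : ℝ) ^ (β * m) with hB
  have hB1 : 1 ≤ B := Real.one_le_rpow hb1.le (by positivity)
  have hp : ∃ p : Fin n, K * B ^ (p : ℕ) < μ p := by
    by_contra hc
    push Not at hc
    have h1 : ∏ i, μ i ≤ (K * B ^ (n - 1)) ^ n := by
      calc _ ≤ ∏ _i : Fin n, K * B ^ (n - 1) :=
            Finset.prod_le_prod (fun i _ => (hμ i).le) fun i _ => (hc i).trans
              (mul_le_mul_of_nonneg_left (pow_le_pow_right₀ hB1 (by omega)) (by linarith))
        _ = _ := by simp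
    have h2 : (B ^ (n - 1)) ^ n * (b : ℝ) ^ (Γ / n * m) = (b : ℝ) ^ (Γ * m) := by
      rw [hB, ← pow_mul, ← Real.rpow_natCast, ← Real.rpow_mul hb0.le, ← Real.rpow_add hb0]
      congr 1
      rw [hβ]
      push_cast [hn]
      field_simp
      ring
    rw [div_lt_iff₀ hdL] at hm₂
    have h3 : 0 < (B ^ (n - 1)) ^ n := by positivity
    have h4 := hlow.trans (mul_le_mul_of_nonneg_left h1 (by positivity))
    rw [hAdet, ← h2, mul_pow] at h4
    have h5 := mul_lt_mul_of_pos_left hm₂ h3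
    nlinarith
  obtain ⟨p, hp1, hp2⟩ : ∃ p : Fin n, K * B ^ (p : ℕ) < μ p ∧
      ∀ j, j < p → μ j ≤ K * B ^ (j : ℕ) := by
    let S : Finset (Fin n) := Finset.univ.filter fun p => K * B ^ (p : ℕ) < μ p
    have hS : S.Nonempty := by
      obtain ⟨p, hp⟩ := hp
      exact ⟨p, by simp [S, hp]⟩
    refine ⟨S.min' hS, (Finset.mem_filter.mp (S.min'_mem hS)).2, fun j hj => ?_⟩
    by_contra hc
    have : j ∈ S := by simp [S, not_le.mp hc]
    exact absurd (S.min'_le j this) (not_le.mpr hj)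
  have hgap : ∀ j, j < p → μ j * B ≤ μ p := by
    intro j hj
    calc μ j * B ≤ K * B ^ (j : ℕ) * B := mul_le_mul_of_nonneg_right (hp2 j hj) (by linarith)
      _ = K * B ^ ((j : ℕ) + 1) := by ring
      _ ≤ K * B ^ (p : ℕ) := mul_le_mul_of_nonneg_left (pow_le_pow_right₀ hB1 hj) (by linarith)
      _ ≤ μ p := hp1.le
  -- the grid
  let ℓ : Fin n → ℝ := fun i => Real.logb b (μ i)
  have hℓ : ∀ i, (b : ℝ) ^ ℓ i = μ i := fun i => Real.rpow_logb hb0 hb1.ne' (hμ i)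
  have hℓsum : ∑ i, ℓ i ≤ (Γ + δ) * m := by
    rw [← Real.rpow_le_rpow_left_iff hb1, Real.rpow_sum_of_pos hb0]
    simp only [hℓ]
    refine hprod.trans ?_
    rw [hAdet, add_mul, Real.rpow_add hb0, ← mul_assoc, mul_comm]
    exact mul_le_mul_of_nonneg_left hm₁.le (by positivity)
  have hℓlow : ∀ i, -(cm * m) ≤ ℓ i := by
    intro i
    let i₀ : Fin n := ⟨0, hn⟩
    have h0 : ∀ j, i₀ ≤ j := fun j => Nat.zero_le _
    have h1 : (fun l => (dd bs k l : ℤ) ^ m * Y l i₀) ≠ 0 := by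
      intro h
      refine hY (Matrix.det_eq_zero_of_column_eq_zero i₀ fun l => ?_)
      have h2 := congrFun h l
      simp only [Pi.zero_apply, mul_eq_zero] at h2
      refine h2.resolve_left (pow_ne_zero _ ?_)
      exact_mod_cast (dd_pos hbs k l).ne'
    have h2 := hC _ ((b : ℝ) ^ ((cm - 1) * m) * μ i) h1 fun j => by
      obtain ⟨j, rfl⟩ := π.surjective j
      push_cast
      refine (hent' j i₀).trans ?_
      rw [min_eq_right (h0 j)]
      refine mul_le_mul (Real.rpow_le_rpow_of_exponent_le hb1.le ?_) (hmono (h0 i)) (hμ _).le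
        (by positivity)
      have := hci (π j)
      nlinarith
    have h3 : 0 < (b : ℝ) ^ ((cm - 1) * m) * μ i := by have := hμ i; positivity
    have h4 := h2.trans (mul_le_mul_of_nonneg_right hm₃.le h3.le)
    rw [← hℓ i, ← Real.rpow_add hb0, ← Real.rpow_add hb0, ← Real.rpow_zero (b : ℝ),
      Real.rpow_le_rpow_left_iff hb1, Real.rpow_zero] at h4
    linarith
  have hℓup : ∀ i, ℓ i ≤ W * m := by
    intro i
    have h1 := Finset.single_le_sum (f := fun i => ℓ i + cm * m)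
      (fun i _ => by have := hℓlow i; linarith) (Finset.mem_univ i)
    rw [Finset.sum_add_distrib] at h1
    simp only [Finset.sum_const, Finset.card_univ, Fintype.card_fin, nsmul_eq_mul] at h1
    have : 0 ≤ cm * m := by positivity
    rw [hW]
    nlinarith
  let z : Fin n → ℤ := fun i => ⌈ℓ i / (δ * m)⌉
  have hdm : 0 < δ * m := by positivity
  have hz1 : ∀ i, ℓ i ≤ (z i : ℝ) * δ * m := fun i => by
    have := Int.le_ceil (ℓ i / (δ * m))
    rw [div_le_iff₀ hdm] at this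
    simpa [z, mul_assoc] using this
  have hz2 : ∀ i, (z i : ℝ) * δ * m ≤ ℓ i + δ * m := fun i => by
    have := (Int.ceil_lt_add_one (ℓ i / (δ * m))).le
    rw [div_add_one hdm.ne', le_div_iff₀ hdm] at this
    simpa [z, mul_assoc] using this
  have hGW : W + δ ≤ G * δ := by
    have := Int.le_ceil (W / δ)
    rw [div_le_iff₀ hδ0] at this
    rw [hG]
    push_cast
    linarith
  have hzT : (p, π, z) ∈ T := by
    simp only [T, Finset.mem_product, Finset.mem_univ, true_and, Fintype.mem_piFinset,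
      Finset.mem_Icc]
    intro i
    have h1 : cm ≤ W := by rw [hW]; nlinarith
    constructor
    · have h2 : ((-G : ℤ) : ℝ) * (δ * m) ≤ (z i : ℝ) * (δ * m) := by
        have := hz1 i
        have := hℓlow i
        push_cast
        nlinarith
      exact_mod_cast le_of_mul_le_mul_right h2 hdm
    · have h2 : (z i : ℝ) * (δ * m) ≤ (G : ℝ) * (δ * m) := by
        have := hz2 i
        have := hℓup i
        nlinarith
      exact_mod_cast le_of_mul_le_mul_right h2 hdm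
  have hcond : ∑ i, c i + ∑ i, (z i : ℝ) * δ - kT ≤ (n + 1) * δ := by
    have h1 : ∑ i, (z i : ℝ) * δ * m ≤ ∑ i, (ℓ i + δ * m) := Finset.sum_le_sum fun i _ => hz2 i
    rw [← Finset.sum_mul, Finset.sum_add_distrib] at h1
    simp only [Finset.sum_const, Finset.card_univ, Fintype.card_fin, nsmul_eq_mul] at h1
    have h2 : (∑ i, (z i : ℝ) * δ) * m ≤ (Γ + (n + 1) * δ) * m := by nlinarith
    have h3 := le_of_mul_le_mul_right h2 hm0
    rw [hΓ] at h3
    linarith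
  obtain ⟨ψ, hψ, hψa⟩ := hstep (p, π, z) hcond m
    (le_trans (Finset.le_sup (f := m₀) hzT) (by omega)) Y μ hY hμ hmono hent'
    (fun i => by
      rw [← hℓ i]
      exact Real.rpow_le_rpow_of_exponent_le hb1.le (hz1 i)) hgap
  refine ⟨ψ, Finset.mem_biUnion.mpr ⟨_, hzT, hψ⟩, fun x hx => ?_⟩
  have hx1 : ∀ l, (dd bs k l : ℤ) ^ m ∣ x l := fun l => by
    rw [dd_pow]; exact prod_pow_dvd hco _ fun a => hx.1 a l
  choose y hy using hx1
  obtain ⟨a, hya, ha⟩ := hspan y p fun i => by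
    have h1 := hx.2 i
    have h2 : ∑ j, L i j * (x j : ℝ) = ∑ l, L i l * ((dd bs k l : ℝ) ^ m * y l) :=
      Finset.sum_congr rfl fun l _ => by rw [hy l]; push_cast; rfl
    rw [h2, hAv, abs_mul, abs_of_pos (Real.rpow_pos_of_pos hb0 _),
      mul_le_iff_le_one_right (Real.rpow_pos_of_pos hb0 _)] at h1
    calc _ ≤ K * 1 := mul_le_mul_of_nonneg_left h1 (by linarith)
      _ ≤ K * B ^ (p : ℕ) := mul_le_mul_of_nonneg_left (one_le_pow₀ hB1) (by linarith)
      _ < μ p := hp1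
  rw [← hψa a ha]
  refine Finset.sum_congr rfl fun i _ => ?_
  rw [hy i, ← hya]

end Pool.Agent.Subspace2
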